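import Pool.Agent.H98.RFC.Defs

/-!
# Board `rfc_modules`: targets

`h` is always the external field, `T` the temperature.  See `/team-store/RFC_PAPER.md`.
-/

set_option autoImplicit false

noncomputable section

open MeasureTheory ProbabilityTheory Filter Topology

namespace Pool.Agent.H98.RFC

/-! ## Finite sums, submodularity, Holley -/

/-- Splitting a sum over the subsets of a disjoint union. -/
def T_PS : Prop := ∀ (α : Type) [DecidableEq α] (P Q : Finset α), Disjoint P Q →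
  ∀ f : Finset α → ℝ,
    ∑ S ∈ (P ∪ Q).powerset, f S = ∑ S ∈ P.powerset, ∑ S' ∈ Q.powerset, f (S ∪ S')

/-- The energy is submodular. -/
def T_SUB : Prop := ∀ (R : ℕ) (J : Site → ℝ), IsCoupling R J → ∀ (h : Site → ℝ)
  (Λ : Finset Site) (A A' : Set Site),
    en R J h Λ (A ∩ A') + en R J h Λ (A ∪ A') ≤ en R J h Λ A + en R J h Λ A'

/-- Holley's inequality on the subsets of `Λ`. -/
def T_HOL : Prop := ∀ (Λ : Finset Site) (w₁ w₂ f : Finset Site → ℝ),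
  (∀ S, S ⊆ Λ → 0 ≤ w₁ S) → (∀ S, S ⊆ Λ → 0 ≤ w₂ S) →
  (∀ S S', S ⊆ Λ → S' ⊆ Λ → w₁ S * w₂ S' ≤ w₁ (S ∩ S') * w₂ (S ∪ S')) →
  (∀ S S', S ⊆ S' → S' ⊆ Λ → f S ≤ f S') →
  (∑ S ∈ Λ.powerset, w₁ S * f S) * (∑ S ∈ Λ.powerset, w₂ S) ≤
    (∑ S ∈ Λ.powerset, w₁ S) * (∑ S ∈ Λ.powerset, w₂ S * f S)

/-- Monotonicity in the boundary condition. -/
def T_MON : Prop := ∀ (R : ℕ) (J : Site → ℝ), IsCoupling R J → ∀ (h : Site → ℝ) (T : ℝ), 0 < T →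
  ∀ (Λ : Finset Site) (B₁ B₂ : Set Site), B₁ ⊆ B₂ → Disjoint B₁ (↑Λ : Set Site) →
  Disjoint B₂ (↑Λ : Set Site) → ∀ f : Finset Site → ℝ,
  (∀ S S', S ⊆ S' → S' ⊆ Λ → f S ≤ f S') →
  (∑ S ∈ Λ.powerset, wt R J h T Λ B₁ S * f S) * Zf R J h T Λ B₂ ≤
    Zf R J h T Λ B₁ * (∑ S ∈ Λ.powerset, wt R J h T Λ B₂ S * f S)

/-- Domain Markov property of the energy. -/
def T_DM : Prop := ∀ (R : ℕ) (J h : Site → ℝ) (W Λ : Finset Site), W ⊆ Λ →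
  ∀ A A' : Set Site, A \ (↑W : Set Site) = A' \ (↑W : Set Site) →
    en R J h Λ A - en R J h W A = en R J h Λ A' - en R J h W A'

/-- The influence is between 0 and 1. -/
def T_NN : Prop := ∀ (R : ℕ) (J : Site → ℝ), IsCoupling R J → ∀ (h : Site → ℝ) (T : ℝ), 0 < T →
  ∀ (Λ : Finset Site), ∀ x ∈ Λ, 0 ≤ inf1 R J h T Λ x ∧ inf1 R J h T Λ x ≤ 1

/-! ## Connections -/

/-- Marginalization: edges that are not inside `D` do not matter. -/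
def T_MG : Prop := ∀ (q : Site × Site → ℝ) (P P' : Finset (Site × Site)) (D : Set Site)
  (Λ : Finset Site) (x : Site), P' ⊆ P → (∀ e ∈ P, e.1 ∈ D → e.2 ∈ D → e ∈ P') →
    psi q P D Λ x = psi q P' D Λ x

/-- `psi` is monotone and between 0 and 1. -/
def T_PM : Prop := ∀ (q : Site × Site → ℝ) (P : Finset (Site × Site)) (D D' : Set Site)
  (Λ : Finset Site) (x : Site), (∀ e, 0 ≤ q e ∧ q e ≤ 1) → D ⊆ D' →
    0 ≤ psi q P D Λ x ∧ psi q P D Λ x ≤ psi q P D' Λ x ∧ psi q P D' Λ x ≤ 1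

/-- `psi` in `Λ` depends on `D` only in the hull of `Λ`. -/
def T_PL : Prop := ∀ (R : ℕ) (q : Site × Site → ℝ) (D D' : Set Site) (Λ : Finset Site) (x : Site),
  x ∈ Λ → (∀ z ∈ hull R Λ, (z ∈ D ↔ z ∈ D')) →
    psi q (prs R Λ) D Λ x = psi q (prs R Λ) D' Λ x

/-- Zero field Edwards–Sokal identity: plus boundary magnetization = connection probability. -/
def T_ESI : Prop := ∀ (U Λ : Finset Site) (P : Finset (Site × Site)) (κ : Site × Site → ℝ)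
  (x : Site), U ⊆ Λ → x ∈ U →
  (∀ e ∈ P, (e.1 ∈ U ∨ e.1 ∉ Λ) ∧ (e.2 ∈ U ∨ e.2 ∉ Λ)) →
  ∑ s ∈ U.powerset, sg (↑s ∪ (↑Λ)ᶜ) x *
      ∏ e ∈ P, Real.exp (κ e * sg (↑s ∪ (↑Λ)ᶜ) e.1 * sg (↑s ∪ (↑Λ)ᶜ) e.2) =
    ∑ s ∈ U.powerset, psi (fun e => Real.exp (-(2 * κ e))) P (↑s ∪ (↑Λ)ᶜ) Λ x *
      ∏ e ∈ P, Real.exp (κ e * sg (↑s ∪ (↑Λ)ᶜ) e.1 * sg (↑s ∪ (↑Λ)ᶜ) e.2)

/-- Two copies: the influence is a connection probability. -/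
def T_REP : Prop := ∀ (R : ℕ) (J : Site → ℝ), IsCoupling R J → ∀ (h : Site → ℝ) (T : ℝ), 0 < T →
  ∀ (Λ : Finset Site), ∀ x ∈ Λ,
  ∑ S ∈ Λ.powerset, ∑ S' ∈ Λ.powerset, wt R J h T Λ (↑Λ)ᶜ S * wt R J h T Λ ∅ S' *
      psi (qe J T) (prs R Λ) ((↑S ∪ (↑Λ)ᶜ) \ ↑S') Λ x =
    Zf R J h T Λ (↑Λ)ᶜ * Zf R J h T Λ ∅ * inf1 R J h T Λ x

/-- One box with arbitrary boundary conditions. -/
def T_BOX : Prop := ∀ (R : ℕ) (J : Site → ℝ), IsCoupling R J → ∀ (h : Site → ℝ) (T : ℝ), 0 < T →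
  ∀ (W : Finset Site) (B B' : Set Site), Disjoint B (↑W : Set Site) →
  Disjoint B' (↑W : Set Site) → ∀ y ∈ W,
  ∑ S ∈ W.powerset, ∑ S' ∈ W.powerset, wt R J h T W B S * wt R J h T W B' S' *
      psi (qe J T) (prs R W) ((↑S ∪ B) \ (↑S' ∪ B')) W y ≤
    Zf R J h T W B * Zf R J h T W B' * inf1 R J h T W y

/-- One box inside `Λ`. -/
def T_STEP : Prop := ∀ (R : ℕ) (J : Site → ℝ), IsCoupling R J → ∀ (h : Site → ℝ) (T : ℝ), 0 < T →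
  ∀ (W Λ : Finset Site), W ⊆ Λ → ∀ y ∈ W, ∀ G : Finset Site → Finset Site → ℝ,
  (∀ S S', 0 ≤ G S S') → (∀ S S', G S S' = G (S \ W) (S' \ W)) →
  ∑ S ∈ Λ.powerset, ∑ S' ∈ Λ.powerset, wt R J h T Λ (↑Λ)ᶜ S * wt R J h T Λ ∅ S' *
      (G S S' * psi (qe J T) (prs R W) ((↑S ∪ (↑Λ)ᶜ) \ ↑S') W y) ≤
    inf1 R J h T W y * ∑ S ∈ Λ.powerset, ∑ S' ∈ Λ.powerset,
      wt R J h T Λ (↑Λ)ᶜ S * wt R J h T Λ ∅ S' * G S S'

/-- Many boxes. -/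
def T_MUL : Prop := ∀ (R : ℕ) (J : Site → ℝ), IsCoupling R J → ∀ (h : Site → ℝ) (T : ℝ), 0 < T →
  ∀ (Λ : Finset Site) (n : ℕ) (W : Fin n → Finset Site) (y : Fin n → Site),
  (∀ i, W i ⊆ Λ) → (∀ i, y i ∈ W i) → SepF R W →
  ∑ S ∈ Λ.powerset, ∑ S' ∈ Λ.powerset, wt R J h T Λ (↑Λ)ᶜ S * wt R J h T Λ ∅ S' *
      ∏ i, psi (qe J T) (prs R (W i)) ((↑S ∪ (↑Λ)ᶜ) \ ↑S') (W i) (y i) ≤
    Zf R J h T Λ (↑Λ)ᶜ * Zf R J h T Λ ∅ * ∏ i, inf1 R J h T (W i) (y i)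

open Classical in
/-- Connections in separated boxes are independent. -/
def T_FAC : Prop := ∀ (R : ℕ) (q : Site × Site → ℝ) (Λ : Finset Site) (n : ℕ)
  (W : Fin n → Finset Site) (y : Fin n → Site) (D : Set Site),
  (∀ i, W i ⊆ Λ) → SepF R W →
  ∑ ω ∈ (prs R Λ).powerset, bw (prs R Λ) q ω *
      (if ∀ i, conn D (W i) ω (y i) then 1 else 0) =
    ∏ i, psi q (prs R (W i)) D (W i) (y i)

/-- A path from `0` to the outside of a large box visits a long separated chain. -/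
def T_PTH : Prop := ∀ (R r n L : ℕ), n * (2 * r + 2 * R) + r ≤ L →
  ∀ (D : Set Site) (ω : Finset (Site × Site)), ω ⊆ prs R (box L) → conn D (box L) ω 0 →
  ∃ a ∈ Fintype.piFinset (fun _ : Fin n => ann R r), Sep R r a ∧
    ∀ j, conn D (bx (pt a j) r) ω (pt a j)

/-- The geometry of the chains. -/
def T_GEO : Prop := ∀ (R r n L : ℕ), n * (2 * r + 2 * R) + r ≤ L →
  ∀ a ∈ Fintype.piFinset (fun _ : Fin n => ann R r),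
    (∀ j, bx (pt a j) r ⊆ box L) ∧ (Sep R r a → SepF R (fun j => bx (pt a j) r)) ∧
    (ann R r).card = 4 * R * (4 * r + 3 * R + 1)

open Classical in
/-- The quenched inequality. -/
def T_QUE : Prop := ∀ (R : ℕ) (J : Site → ℝ), IsCoupling R J → ∀ (h : Site → ℝ) (T : ℝ), 0 < T →
  ∀ r n L : ℕ, n * (2 * r + 2 * R) + r ≤ L →
  inf1 R J h T (box L) 0 ≤
    ∑ a ∈ (Fintype.piFinset (fun _ : Fin n => ann R r)).filter (fun a => Sep R r a),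
      ∏ j, inf1 R J h T (bx (pt a j) r) (pt a j)

/-! ## Averaging over the Gaussian field -/

/-- The influence depends on the field in `Λ` only. -/
def T_LOC : Prop := ∀ (R : ℕ) (J h h' : Site → ℝ) (T : ℝ) (Λ : Finset Site) (x : Site),
  (∀ z ∈ Λ, h z = h' z) → infl R J h T Λ x = infl R J h' T Λ x

/-- Translations. -/
def T_TRA : Prop := ∀ (R : ℕ) (J h : Site → ℝ) (T : ℝ) (y : Site) (r : ℕ),
  infl R J h T (bx y r) y = infl R J (fun x => h (y + x)) T (box r) 0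

/-- The law of the field is invariant under translations. -/
def T_TRG : Prop := ∀ y : Site, gam.map (fun (η : Site → ℝ) (x : Site) => η (y + x)) = gam

/-- Measurability and bounds. -/
def T_MEA : Prop := ∀ (R : ℕ) (J : Site → ℝ), IsCoupling R J → ∀ (T ε : ℝ), 0 ≤ T →
  ∀ (Λ : Finset Site), ∀ x ∈ Λ,
    Measurable (fun η : Site → ℝ => infl R J (fun x => ε * η x) T Λ x) ∧
    ∀ η : Site → ℝ, |infl R J (fun x => ε * η x) T Λ x| ≤ 1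

/-- Independence of the boxes. -/
def T_PRO : Prop := ∀ (R : ℕ) (J : Site → ℝ), IsCoupling R J → ∀ (T ε : ℝ), 0 < T →
  ∀ (r n : ℕ) (a : Fin n → Site), Sep R r a →
    ∫ η, ∏ j, inf1 R J (fun x => ε * η x) T (bx (pt a j) r) (pt a j) ∂gam =
      mag R J T ε r ^ (n + 1)

/-- The finite volume inequality, `T > 0`. -/
def T_IN1 : Prop := ∀ (R : ℕ) (J : Site → ℝ), IsCoupling R J → ∀ (T ε : ℝ), 0 < T →
  ∀ r n L : ℕ, n * (2 * r + 2 * R) + r ≤ L →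
    mag R J T ε L ≤ (4 * R * (4 * r + 3 * R + 1) : ℝ) ^ n * mag R J T ε r ^ (n + 1)

/-- Limit `T → 0`, fixed field. -/
def T_LM : Prop := ∀ (R : ℕ) (J h : Site → ℝ) (Λ : Finset Site) (x : Site),
  Tendsto (fun T : ℝ => infl R J h T Λ x) (𝓝[>] 0) (𝓝 (infl R J h 0 Λ x))

/-- The finite volume inequality, `T ≥ 0`. -/
def T_IN : Prop := ∀ (R : ℕ) (J : Site → ℝ), IsCoupling R J → ∀ (T ε : ℝ), 0 ≤ T →
  ∀ r n L : ℕ, n * (2 * r + 2 * R) + r ≤ L →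
    mag R J T ε L ≤ (4 * R * (4 * r + 3 * R + 1) : ℝ) ^ n * mag R J T ε r ^ (n + 1)

/-- `0 ≤ m ≤ 1`. -/
def T_M01 : Prop := ∀ (R : ℕ) (J : Site → ℝ), IsCoupling R J → ∀ (T ε : ℝ), 0 ≤ T →
  ∀ L : ℕ, 0 ≤ mag R J T ε L ∧ mag R J T ε L ≤ 1

/-- Real analysis: the inequality gives exponential decay, with constants depending only on
`θ < 1`. -/
def T_DEC : Prop := ∀ (R r : ℕ) (A θ : ℝ), 0 ≤ A → 0 ≤ θ → θ < 1 →
  ∃ C > 0, ∃ c > 0, ∀ m : ℕ → ℝ, (∀ L, 0 ≤ m L ∧ m L ≤ 1) →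
    (∀ n L : ℕ, n * (2 * r + 2 * R) + r ≤ L → m L ≤ A ^ n * m r ^ (n + 1)) → A * m r ≤ θ →
    ∀ L : ℕ, 1 ≤ L → m L ≤ C * Real.exp (-(c * L))

/-! ## Continuity in the parameters -/

/-- Pointwise continuity at positive temperature. -/
def T_PC : Prop := ∀ (R : ℕ) (J : ℕ → Site → ℝ) (J₀ : Site → ℝ) (h : ℕ → Site → ℝ)
  (h₀ : Site → ℝ) (T : ℕ → ℝ) (T₀ : ℝ) (Λ : Finset Site) (x : Site), 0 < T₀ →
  (∀ z, Tendsto (fun n => J n z) atTop (𝓝 (J₀ z))) →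
  (∀ z, Tendsto (fun n => h n z) atTop (𝓝 (h₀ z))) → Tendsto T atTop (𝓝 T₀) →
  Tendsto (fun n => infl R (J n) (h n) (T n) Λ x) atTop (𝓝 (infl R J₀ h₀ T₀ Λ x))

/-- Pointwise continuity at zero temperature if the ground states are unique. -/
def T_PC0 : Prop := ∀ (R : ℕ) (J : ℕ → Site → ℝ) (J₀ : Site → ℝ) (h : ℕ → Site → ℝ)
  (h₀ : Site → ℝ) (T : ℕ → ℝ) (Λ : Finset Site) (x : Site),
  (gs R J₀ h₀ Λ (↑Λ)ᶜ).card = 1 → (gs R J₀ h₀ Λ ∅).card = 1 →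
  (∀ z, Tendsto (fun n => J n z) atTop (𝓝 (J₀ z))) →
  (∀ z, Tendsto (fun n => h n z) atTop (𝓝 (h₀ z))) → (∀ n, 0 ≤ T n) → Tendsto T atTop (𝓝 0) →
  Tendsto (fun n => infl R (J n) (h n) (T n) Λ x) atTop (𝓝 (infl R J₀ h₀ 0 Λ x))

/-- Almost surely the ground state is unique. -/
def T_UNQ : Prop := ∀ (R : ℕ) (J : Site → ℝ) (ε : ℝ), ε ≠ 0 → ∀ (Λ : Finset Site) (B : Set Site),
  Disjoint B (↑Λ : Set Site) →
    ∀ᵐ η ∂gam, (gs R J (fun x => ε * η x) Λ B).card = 1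

/-- Sequential continuity of `m`. -/
def T_SEQ : Prop := ∀ (R : ℕ) (J : ℕ → Site → ℝ) (J₀ : Site → ℝ) (T ε : ℕ → ℝ) (T₀ ε₀ : ℝ)
  (L : ℕ), (∀ n, IsCoupling R (J n)) → (∀ n, 0 ≤ T n) → 0 ≤ T₀ → 0 < ε₀ →
  (∀ z, Tendsto (fun n => J n z) atTop (𝓝 (J₀ z))) → Tendsto T atTop (𝓝 T₀) →
  Tendsto ε atTop (𝓝 ε₀) →
  Tendsto (fun n => mag R (J n) (T n) (ε n) L) atTop (𝓝 (mag R J₀ T₀ ε₀ L))

/-- The main theorem of the board. -/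
def T_ALL : Prop := ∀ R : ℕ,
  (∀ (J : Site → ℝ), IsCoupling R J → ∀ (T ε : ℝ), 0 ≤ T →
    ∀ r n L : ℕ, n * (2 * r + 2 * R) + r ≤ L →
      mag R J T ε L ≤ (4 * R * (4 * r + 3 * R + 1) : ℝ) ^ n * mag R J T ε r ^ (n + 1)) ∧
  (∀ (J : Site → ℝ), IsCoupling R J → ∀ (T ε : ℝ), 0 ≤ T → ¬ ExpDecay R J T ε →
    ∀ r : ℕ, 1 ≤ (4 * R * (4 * r + 3 * R + 1) : ℝ) * mag R J T ε r) ∧
  (∀ (J₀ : Site → ℝ), IsCoupling R J₀ → ∀ (T₀ ε₀ : ℝ), 0 ≤ T₀ → 0 < ε₀ → ExpDecay R J₀ T₀ ε₀ →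
    ∃ δ > 0, ∃ C > 0, ∃ c > 0, ∀ (J : Site → ℝ), IsCoupling R J → ∀ (T ε : ℝ), 0 ≤ T →
      (∀ z, |J z - J₀ z| < δ) → |T - T₀| < δ → |ε - ε₀| < δ →
      ∀ L : ℕ, 1 ≤ L → mag R J T ε L ≤ C * Real.exp (-(c * L)))

end Pool.Agent.H98.RFC
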