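import Mathlib

/-!
# The random field Ising model on `ℤ²` with a finite range coupling: definitions

Used for the board `rfc_modules` (problem MP_057a7e_pr).
-/

set_option autoImplicit false

noncomputable section

open MeasureTheory ProbabilityTheory

namespace Pool.Agent.H98.RFC

/-- The lattice `ℤ²`. -/
abbrev Site := ℤ × ℤ

/-- The box `{-L,…,L}²`. -/
def box (L : ℕ) : Finset Site := Finset.Icc (-(L : ℤ)) L ×ˢ Finset.Icc (-(L : ℤ)) L

/-- The box of radius `r` around `y`. -/
def bx (y : Site) (r : ℕ) : Finset Site :=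
  Finset.Icc (y.1 - r) (y.1 + r) ×ˢ Finset.Icc (y.2 - r) (y.2 + r)

/-- Ferromagnetic, even couplings that vanish outside `{-R,…,R}²`. -/
structure IsCoupling (R : ℕ) (J : Site → ℝ) : Prop where
  nonneg : ∀ z, 0 ≤ J z
  even : ∀ z, J (-z) = J z
  range : ∀ z, z ∉ box R → J z = 0

open Classical in
/-- The spin configuration with set of plus sites `A`. -/
def sg (A : Set Site) (x : Site) : ℝ := if x ∈ A then 1 else -1

/-- The sites at distance at most `R` from `Λ`. -/
def hull (R : ℕ) (Λ : Finset Site) : Finset Site := Λ.biUnion (fun x => bx x R)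

/-- The ordered pairs of sites at distance at most `R` with at least one site in `Λ`. -/
def prs (R : ℕ) (Λ : Finset Site) : Finset (Site × Site) :=
  (hull R Λ ×ˢ hull R Λ).filter (fun p => (p.1 ∈ Λ ∨ p.2 ∈ Λ) ∧ p.2 - p.1 ∈ box R)

/-- The energy in `Λ` of the configuration with set of plus sites `A` (all of `ℤ²`), in the
external field `h`. -/
def en (R : ℕ) (J h : Site → ℝ) (Λ : Finset Site) (A : Set Site) : ℝ :=
  -(1 / 2) * ∑ p ∈ prs R Λ, J (p.1 - p.2) * sg A p.1 * sg A p.2 - ∑ x ∈ Λ, h x * sg A x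

/-- Boltzmann weight at temperature `T` of the configuration that is plus exactly on
`S ∪ B` (`S ⊆ Λ`, `B` = the plus sites of the boundary condition). -/
def wt (R : ℕ) (J h : Site → ℝ) (T : ℝ) (Λ : Finset Site) (B : Set Site) (S : Finset Site) : ℝ :=
  Real.exp (-(en R J h Λ (↑S ∪ B)) / T)

/-- Partition function. -/
def Zf (R : ℕ) (J h : Site → ℝ) (T : ℝ) (Λ : Finset Site) (B : Set Site) : ℝ :=
  ∑ S ∈ Λ.powerset, wt R J h T Λ B S

/-- Gibbs average of the spin at `x`. -/
def mg (R : ℕ) (J h : Site → ℝ) (T : ℝ) (Λ : Finset Site) (B : Set Site) (x : Site) : ℝ :=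
  (∑ S ∈ Λ.powerset, wt R J h T Λ B S * sg (↑S ∪ B) x) / Zf R J h T Λ B

open Classical in
/-- The set of ground states. -/
def gs (R : ℕ) (J h : Site → ℝ) (Λ : Finset Site) (B : Set Site) : Finset (Finset Site) :=
  Λ.powerset.filter (fun S => ∀ S' ∈ Λ.powerset, en R J h Λ (↑S ∪ B) ≤ en R J h Λ (↑S' ∪ B))

/-- Average of the spin at `x` over the ground states (there is only one for almost every
Gaussian field). -/
def mg0 (R : ℕ) (J h : Site → ℝ) (Λ : Finset Site) (B : Set Site) (x : Site) : ℝ :=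
  (∑ S ∈ gs R J h Λ B, sg (↑S ∪ B) x) / ((gs R J h Λ B).card : ℝ)

/-- Influence of the boundary at `x`, temperature `T > 0`. -/
def inf1 (R : ℕ) (J h : Site → ℝ) (T : ℝ) (Λ : Finset Site) (x : Site) : ℝ :=
  (mg R J h T Λ (↑Λ)ᶜ x - mg R J h T Λ ∅ x) / 2

/-- Influence of the boundary at `x`, temperature `0`. -/
def inf0 (R : ℕ) (J h : Site → ℝ) (Λ : Finset Site) (x : Site) : ℝ :=
  (mg0 R J h Λ (↑Λ)ᶜ x - mg0 R J h Λ ∅ x) / 2

/-- Half the difference of the plus and the minus boundary magnetization at `x`,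
temperature `T ≥ 0`. -/
def infl (R : ℕ) (J h : Site → ℝ) (T : ℝ) (Λ : Finset Site) (x : Site) : ℝ :=
  if T = 0 then inf0 R J h Λ x else inf1 R J h T Λ x

/-- The law of an i.i.d. standard Gaussian field on `ℤ²`. -/
def gam : Measure (Site → ℝ) := Measure.infinitePi (fun _ : Site => gaussianReal 0 1)

/-- The boundary effect on the magnetization, `m(T, ε, L)`. -/
def mag (R : ℕ) (J : Site → ℝ) (T ε : ℝ) (L : ℕ) : ℝ :=
  ∫ η, infl R J (fun x => ε * η x) T (box L) 0 ∂gam

/-- Exponential decay of `m(T, ε, L)` in `L`. -/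
def ExpDecay (R : ℕ) (J : Site → ℝ) (T ε : ℝ) : Prop :=
  ∃ C > 0, ∃ c > 0, ∀ L : ℕ, 1 ≤ L → mag R J T ε L ≤ C * Real.exp (-(c * L))

/-! ### Edges and connections -/

/-- Probability that a directed copy of the edge `e` is closed. -/
def qe (J : Site → ℝ) (T : ℝ) (e : Site × Site) : ℝ := Real.exp (-(2 * J (e.1 - e.2)) / T)

/-- The edge between `a` and `b` is open. -/
def opn (ω : Finset (Site × Site)) (a b : Site) : Prop := (a, b) ∈ ω ∨ (b, a) ∈ ω

/-- `x` is connected to the complement of `Λ` by a path of open edges inside `D`. -/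
def conn (D : Set Site) (Λ : Finset Site) (ω : Finset (Site × Site)) (x : Site) : Prop :=
  ∃ y, y ∉ Λ ∧ Relation.ReflTransGen (fun a b => a ∈ Λ ∧ a ∈ D ∧ b ∈ D ∧ opn ω a b) x y

/-- Weight of the set `ω` of open edges among the edges `P`. -/
def bw (P : Finset (Site × Site)) (q : Site × Site → ℝ) (ω : Finset (Site × Site)) : ℝ :=
  (∏ e ∈ ω, (1 - q e)) * ∏ e ∈ P \ ω, q e

open Classical in
/-- Probability that `x` is connected to the complement of `Λ` inside `D`. -/
def psi (q : Site × Site → ℝ) (P : Finset (Site × Site)) (D : Set Site) (Λ : Finset Site)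
    (x : Site) : ℝ :=
  ∑ ω ∈ P.powerset, bw P q ω * (if conn D Λ ω x then 1 else 0)

/-- No site of one set is at distance at most `R` from another set. -/
def SepF (R : ℕ) {n : ℕ} (W : Fin n → Finset Site) : Prop :=
  ∀ i j, i ≠ j → Disjoint (hull R (W i)) (W j)

/-- The sites at distance more than `2r+R` and at most `2r+2R` from `0`. -/
def ann (R r : ℕ) : Finset Site := box (2 * r + 2 * R) \ box (2 * r + R)

/-- Partial sums of `a`, started at `0`. -/
def pt {n : ℕ} (a : Fin n → Site) (j : Fin (n + 1)) : Site :=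
  ∑ i : Fin n, if (i : ℕ) < (j : ℕ) then a i else 0

/-- The partial sums are at mutual distance more than `2r+R`. -/
def Sep (R r : ℕ) {n : ℕ} (a : Fin n → Site) : Prop :=
  ∀ i j, i ≠ j → pt a i - pt a j ∉ box (2 * r + R)

end Pool.Agent.H98.RFC
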