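import Pool.Agent.H98.RFC.Targets

/-!
# The influence is between 0 and 1 (row NN, written by helper68)
-/

set_option autoImplicit false

namespace Pool.Agent.H98.RFC

theorem nn_sg_le (A : Set Site) (x : Site) : sg A x ≤ 1 := by
  unfold sg
  split_ifs <;> norm_num

theorem nn_le_sg (A : Set Site) (x : Site) : -1 ≤ sg A x := by
  unfold sg
  split_ifs <;> norm_num

theorem nn_Zf_pos (R : ℕ) (J h : Site → ℝ) (T : ℝ) (Λ : Finset Site) (B : Set Site) :
    0 < Zf R J h T Λ B := by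
  unfold Zf
  exact Finset.sum_pos (fun S _ => by unfold wt; exact Real.exp_pos _)
    ⟨∅, Finset.empty_mem_powerset Λ⟩

theorem nn_wt_nonneg (R : ℕ) (J h : Site → ℝ) (T : ℝ) (Λ : Finset Site) (B : Set Site)
    (S : Finset Site) : 0 ≤ wt R J h T Λ B S := by
  unfold wt
  exact (Real.exp_pos _).le

theorem nn_mg_le (R : ℕ) (J h : Site → ℝ) (T : ℝ) (Λ : Finset Site) (B : Set Site) (x : Site) :
    mg R J h T Λ B x ≤ 1 := by
  unfold mg
  rw [div_le_one (nn_Zf_pos R J h T Λ B)]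
  unfold Zf
  refine Finset.sum_le_sum fun S _ => ?_
  exact mul_le_of_le_one_right (nn_wt_nonneg R J h T Λ B S) (nn_sg_le _ x)

theorem nn_le_mg (R : ℕ) (J h : Site → ℝ) (T : ℝ) (Λ : Finset Site) (B : Set Site) (x : Site) :
    -1 ≤ mg R J h T Λ B x := by
  unfold mg
  rw [le_div_iff₀ (nn_Zf_pos R J h T Λ B)]
  unfold Zf
  rw [Finset.mul_sum]
  refine Finset.sum_le_sum fun S _ => ?_
  have h1 := mul_le_mul_of_nonneg_left (nn_le_sg (↑S ∪ B) x) (nn_wt_nonneg R J h T Λ B S)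
  linarith

theorem pf_NN (hMON : T_MON) : T_NN := by
  intro R J hJ h T hT Λ x hx
  have hB1 : Disjoint (∅ : Set Site) (↑Λ : Set Site) := Set.empty_disjoint _
  have hB2 : Disjoint ((↑Λ : Set Site)ᶜ) (↑Λ : Set Site) := disjoint_compl_left
  have hx1 : x ∈ (↑Λ : Set Site) := Finset.mem_coe.2 hx
  have hmono : ∀ S S' : Finset Site, S ⊆ S' → S' ⊆ Λ → sg (↑S : Set Site) x ≤ sg ↑S' x := by
    intro S S' hS _
    unfold sg
    by_cases h1 : x ∈ (↑S : Set Site)
    · have h2 : x ∈ (↑S' : Set Site) := Finset.mem_coe.2 (hS (Finset.mem_coe.1 h1))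
      rw [if_pos h1, if_pos h2]
    · rw [if_neg h1]
      split_ifs <;> norm_num
  have key := hMON R J hJ h T hT Λ ∅ ((↑Λ : Set Site)ᶜ) (Set.empty_subset _) hB1 hB2
    (fun S => sg ↑S x) hmono
  have e1 : ∀ S : Finset Site, sg (↑S ∪ (∅ : Set Site)) x = sg ↑S x := by
    intro S
    rw [Set.union_empty]
  have e2 : ∀ S : Finset Site, sg (↑S ∪ (↑Λ : Set Site)ᶜ) x = sg ↑S x := by
    intro S
    unfold sg
    have h1 : x ∈ (↑S ∪ (↑Λ : Set Site)ᶜ) ↔ x ∈ (↑S : Set Site) := by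
      constructor
      · rintro (h | h)
        · exact h
        · exact absurd hx1 h
      · exact fun h => Or.inl h
    by_cases h2 : x ∈ (↑S : Set Site)
    · rw [if_pos h2, if_pos (h1.2 h2)]
    · rw [if_neg h2, if_neg (fun h => h2 (h1.1 h))]
  have h3 : mg R J h T Λ ∅ x ≤ mg R J h T Λ (↑Λ : Set Site)ᶜ x := by
    unfold mg
    rw [div_le_div_iff₀ (nn_Zf_pos R J h T Λ ∅) (nn_Zf_pos R J h T Λ _)]
    rw [Finset.sum_congr rfl fun S _ => by rw [e1 S],
      Finset.sum_congr (s₁ := Λ.powerset) (f := fun S => wt R J h T Λ (↑Λ : Set Site)ᶜ S *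
        sg (↑S ∪ (↑Λ : Set Site)ᶜ) x) rfl fun S _ => by rw [e2 S]]
    rw [mul_comm (∑ S ∈ Λ.powerset, wt R J h T Λ (↑Λ : Set Site)ᶜ S * sg (↑S : Set Site) x)]
    exact key
  have h4 := nn_mg_le R J h T Λ (↑Λ : Set Site)ᶜ x
  have h5 := nn_le_mg R J h T Λ ∅ x
  unfold inf1
  constructor
  · linarith
  · linarith

end Pool.Agent.H98.RFC
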