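import Pool.Agent.H98.RFC.Targets

/-!
# Board `rfc_modules`, row PC0: continuity of the influence at temperature zero
-/

set_option autoImplicit false

open Filter Topology

namespace Pool.Agent.H98.RFC

theorem pc0_abs {ι : Type*} [DecidableEq ι] (P : Finset ι) (E : ℕ → ι → ℝ) (E₀ : ι → ℝ)
    (T : ℕ → ℝ) (v : ι → ℝ) (hv : ∀ S, |v S| ≤ 1) (S₀ : ι) (hS₀ : S₀ ∈ P)
    (hmin : ∀ S ∈ P, S ≠ S₀ → E₀ S₀ < E₀ S)
    (hE : ∀ S, Tendsto (fun n => E n S) atTop (𝓝 (E₀ S))) (hT0 : ∀ n, 0 ≤ T n)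
    (hT : Tendsto T atTop (𝓝 0)) (G : ℕ → Finset ι)
    (hG : ∀ n S, S ∈ G n ↔ (S ∈ P ∧ ∀ S' ∈ P, E n S ≤ E n S')) :
    Tendsto (fun n => if T n = 0 then (∑ S ∈ G n, v S) / ((G n).card : ℝ)
      else (∑ S ∈ P, Real.exp (-(E n S) / T n) * v S) / (∑ S ∈ P, Real.exp (-(E n S) / T n)))
      atTop (𝓝 (v S₀)) := by
  obtain ⟨g, hg, hgap⟩ : ∃ g : ℝ, 0 < g ∧ ∀ S ∈ P.erase S₀, g < E₀ S - E₀ S₀ := by
    by_cases hne : (P.erase S₀).Nonempty
    · obtain ⟨M, hM, hM2⟩ := Finset.exists_min_image (P.erase S₀) E₀ hne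
      have h1 := hmin M (Finset.mem_of_mem_erase hM) (Finset.ne_of_mem_erase hM)
      refine ⟨(E₀ M - E₀ S₀) / 2, by linarith, fun S hS => ?_⟩
      have := hM2 S hS
      linarith
    · refine ⟨1, one_pos, fun S hS => ?_⟩
      exact absurd ⟨S, hS⟩ hne
  have hev : ∀ᶠ n in atTop, ∀ S ∈ P.erase S₀, g < E n S - E n S₀ := by
    rw [Filter.eventually_all_finset]
    intro S hS
    exact ((hE S).sub (hE S₀)).eventually_const_lt (hgap S hS)
  have hbd : ∀ᶠ n in atTop, ‖(if T n = 0 then (∑ S ∈ G n, v S) / ((G n).card : ℝ)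
      else (∑ S ∈ P, Real.exp (-(E n S) / T n) * v S) /
        (∑ S ∈ P, Real.exp (-(E n S) / T n))) - v S₀‖ ≤ (P.card * 2 / g) * T n := by
    filter_upwards [hev] with n hn
    rcases eq_or_lt_of_le (hT0 n) with h0 | hpos
    · have hT0' : T n = 0 := h0.symm
      have hGn : G n = {S₀} := by
        ext S
        rw [hG, Finset.mem_singleton]
        constructor
        · rintro ⟨hSP, hSm⟩
          by_contra hne
          have h1 := hn S (Finset.mem_erase.2 ⟨hne, hSP⟩)
          have h2 := hSm S₀ hS₀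
          linarith
        · rintro rfl
          refine ⟨hS₀, fun S' hS' => ?_⟩
          by_cases hne : S' = S
          · rw [hne]
          · have h1 := hn S' (Finset.mem_erase.2 ⟨hne, hS'⟩)
            linarith
      rw [if_pos hT0', hGn, hT0']
      simp
    · rw [if_neg hpos.ne']
      set Z := ∑ S ∈ P, Real.exp (-(E n S) / T n) with hZ
      have hZpos : 0 < Z := Finset.sum_pos (fun S _ => Real.exp_pos _) ⟨S₀, hS₀⟩
      have heq : (∑ S ∈ P, Real.exp (-(E n S) / T n) * v S) / Z - v S₀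
          = (∑ S ∈ P, Real.exp (-(E n S) / T n) * (v S - v S₀)) / Z := by
        have : ∑ S ∈ P, Real.exp (-(E n S) / T n) * (v S - v S₀)
            = (∑ S ∈ P, Real.exp (-(E n S) / T n) * v S) - Z * v S₀ := by
          rw [hZ, Finset.sum_mul, ← Finset.sum_sub_distrib]
          refine Finset.sum_congr rfl fun S _ => ?_
          ring
        rw [this, sub_div, mul_div_cancel_left₀ _ hZpos.ne']
      rw [heq, Real.norm_eq_abs, abs_div, abs_of_pos hZpos, div_le_iff₀ hZpos]
      have hterm : ∀ S ∈ P, |Real.exp (-(E n S) / T n) * (v S - v S₀)| ≤ 2 / g * T n * Z := by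
        intro S hS
        by_cases hne : S = S₀
        · rw [hne, sub_self, mul_zero, abs_zero]
          positivity
        · have h1 := hn S (Finset.mem_erase.2 ⟨hne, hS⟩)
          rw [abs_mul, abs_of_pos (Real.exp_pos _)]
          have hvv : |v S - v S₀| ≤ 2 := by
            have h2 := abs_sub (v S) (v S₀)
            have h3 := hv S
            have h4 := hv S₀
            linarith
          have hexp : Real.exp (-(E n S) / T n) ≤ Z * (T n / g) := by
            have e1 : Real.exp (-(E n S) / T n)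
                ≤ Real.exp (-(E n S₀) / T n) * Real.exp (-(g / T n)) := by
              rw [← Real.exp_add]
              refine Real.exp_le_exp.2 ?_
              rw [show -(E n S₀) / T n + -(g / T n) = (-(E n S₀) - g) / T n by ring]
              refine div_le_div_of_nonneg_right ?_ hpos.le
              linarith
            have e2 : Real.exp (-(g / T n)) ≤ T n / g := by
              rw [Real.exp_neg]
              have e3 : g / T n ≤ Real.exp (g / T n) := by
                have := Real.add_one_le_exp (g / T n)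
                linarith
              have e4 : 0 < g / T n := div_pos hg hpos
              calc (Real.exp (g / T n))⁻¹ ≤ (g / T n)⁻¹ := inv_anti₀ e4 e3
                _ = T n / g := by rw [inv_div]
            have e5 : Real.exp (-(E n S₀) / T n) ≤ Z :=
              Finset.single_le_sum (f := fun S => Real.exp (-(E n S) / T n))
                (fun S _ => (Real.exp_pos _).le) hS₀
            calc Real.exp (-(E n S) / T n)
                ≤ Real.exp (-(E n S₀) / T n) * Real.exp (-(g / T n)) := e1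
              _ ≤ Z * (T n / g) :=
                mul_le_mul e5 e2 (Real.exp_pos _).le hZpos.le
          calc Real.exp (-(E n S) / T n) * |v S - v S₀| ≤ (Z * (T n / g)) * 2 :=
                mul_le_mul hexp hvv (abs_nonneg _)
                  (mul_nonneg hZpos.le (div_nonneg hpos.le hg.le))
            _ = 2 / g * T n * Z := by ring
      calc |∑ S ∈ P, Real.exp (-(E n S) / T n) * (v S - v S₀)|
          ≤ ∑ S ∈ P, |Real.exp (-(E n S) / T n) * (v S - v S₀)| :=
            Finset.abs_sum_le_sum_abs _ _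
        _ ≤ ∑ _S ∈ P, 2 / g * T n * Z := Finset.sum_le_sum hterm
        _ = P.card * 2 / g * T n * Z := by
            rw [Finset.sum_const, nsmul_eq_mul]
            ring
  have hz : Tendsto (fun n => (P.card * 2 / g) * T n) atTop (𝓝 0) := by
    have := hT.const_mul ((P.card : ℝ) * 2 / g)
    rwa [mul_zero] at this
  have := squeeze_zero_norm' hbd hz
  have h2 := this.add_const (v S₀)
  simpa using h2

theorem pc0_en {R : ℕ} {J : ℕ → Site → ℝ} {J₀ : Site → ℝ} {h : ℕ → Site → ℝ} {h₀ : Site → ℝ}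
    (hJ : ∀ z, Tendsto (fun n => J n z) atTop (𝓝 (J₀ z)))
    (hh : ∀ z, Tendsto (fun n => h n z) atTop (𝓝 (h₀ z))) (Λ : Finset Site) (A : Set Site) :
    Tendsto (fun n => en R (J n) (h n) Λ A) atTop (𝓝 (en R J₀ h₀ Λ A)) := by
  unfold en
  refine Tendsto.sub ?_ ?_
  · refine Tendsto.const_mul _ (tendsto_finsetSum _ fun p _ => ?_)
    exact ((hJ (p.1 - p.2)).mul_const _).mul_const _
  · exact tendsto_finsetSum _ fun z _ => (hh z).mul_const _

theorem pc0_sg (A : Set Site) (x : Site) : |sg A x| ≤ 1 := by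
  unfold sg
  split_ifs <;> simp

open Classical in
theorem pc0_B {R : ℕ} {J : ℕ → Site → ℝ} {J₀ : Site → ℝ} {h : ℕ → Site → ℝ} {h₀ : Site → ℝ}
    {T : ℕ → ℝ} (Λ : Finset Site) (x : Site) (B : Set Site)
    (hc : (gs R J₀ h₀ Λ B).card = 1)
    (hJ : ∀ z, Tendsto (fun n => J n z) atTop (𝓝 (J₀ z)))
    (hh : ∀ z, Tendsto (fun n => h n z) atTop (𝓝 (h₀ z))) (hT0 : ∀ n, 0 ≤ T n)
    (hT : Tendsto T atTop (𝓝 0)) :
    Tendsto (fun n => if T n = 0 then mg0 R (J n) (h n) Λ B x
      else mg R (J n) (h n) (T n) Λ B x) atTop (𝓝 (mg0 R J₀ h₀ Λ B x)) := by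
  obtain ⟨S₀, hS₀⟩ := Finset.card_eq_one.1 hc
  have hmem : S₀ ∈ gs R J₀ h₀ Λ B := by rw [hS₀]; exact Finset.mem_singleton_self _
  have hmem' := hmem
  rw [gs, Finset.mem_filter] at hmem'
  have hlim : mg0 R J₀ h₀ Λ B x = sg (↑S₀ ∪ B) x := by
    rw [mg0, hS₀]
    simp
  rw [hlim]
  have key := pc0_abs Λ.powerset (fun n S => en R (J n) (h n) Λ (↑S ∪ B))
    (fun S => en R J₀ h₀ Λ (↑S ∪ B)) T (fun S => sg (↑S ∪ B) x) (fun S => pc0_sg _ _) S₀
    hmem'.1 (fun S hS hne => by
      by_contra hcon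
      push Not at hcon
      have : S ∈ gs R J₀ h₀ Λ B := by
        rw [gs, Finset.mem_filter]
        exact ⟨hS, fun S' hS' => hcon.trans (hmem'.2 S' hS')⟩
      rw [hS₀, Finset.mem_singleton] at this
      exact hne this)
    (fun S => pc0_en hJ hh Λ _) hT0 hT (fun n => gs R (J n) (h n) Λ B)
    (fun n S => by rw [gs, Finset.mem_filter])
  exact key

theorem pf_PC0 : T_PC0 := by
  intro R J J₀ h h₀ T Λ x hc1 hc2 hJ hh hT0 hT
  have h1 := pc0_B Λ x _ hc1 hJ hh hT0 hT
  have h2 := pc0_B Λ x _ hc2 hJ hh hT0 hT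
  have h3 := (h1.sub h2).div_const 2
  have e0 : infl R J₀ h₀ 0 Λ x = (mg0 R J₀ h₀ Λ (↑Λ)ᶜ x - mg0 R J₀ h₀ Λ ∅ x) / 2 := by
    rw [infl, if_pos rfl, inf0]
  rw [e0]
  refine h3.congr fun n => ?_
  by_cases hn : T n = 0
  · simp only [infl, inf0, if_pos hn]
  · simp only [infl, inf1, if_neg hn]

end Pool.Agent.H98.RFC
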