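import Pool.Agent.H34.RFC.ALL
import Pool.Agent.H13.RFC.BOX
import Pool.Agent.H34.RFC.DEC
import Pool.Agent.H19.RFC.PS
import Pool.Agent.H7.RFC.ESI
import Pool.Agent.H11.RFC.FAC
import Pool.Agent.H49.RFC.GEO
import Pool.Agent.H79.RFC.IN
import Pool.Agent.H49.RFC.IN1
import Pool.Agent.H49.RFC.LM
import Pool.Agent.H30.RFC.LOC
import Pool.Agent.H19.RFC.MEA
import Pool.Agent.H35.RFC.MG
import Pool.Agent.H35.RFC.MON
import Pool.Agent.H33.RFC.MUL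
import Pool.Agent.H98.RFC.NN
import Pool.Agent.H41.RFC.PC
import Pool.Agent.H98.RFC.PC0
import Pool.Agent.H38.RFC.PL
import Pool.Agent.H39.RFC.PM
import Pool.Agent.H65.RFC.PRO
import Pool.Agent.H65.RFC.PTH
import Pool.Agent.H19.RFC.QUE
import Pool.Agent.H79.RFC.REP
import Pool.Agent.H34.RFC.SEQ
import Pool.Agent.H80.RFC.STEP
import Pool.Agent.H65.RFC.SUB
import Pool.Agent.H30.RFC.TRA
import Pool.Agent.H30.RFC.TRG
import Pool.Agent.H65.RFC.UNQ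

/-! # Assembly of the board `rfc_modules` -/

set_option autoImplicit false

namespace Pool.Agent.H98.RFC

theorem a_MON : T_MON := Pool.Agent.H35.RFC.pf_MON Pool.Agent.H65.RFC.pf_SUB
  Pool.Agent.H19.RFC.pf_HOL

theorem a_NN : T_NN := pf_NN a_MON

theorem a_MG : T_MG := Pool.Agent.H35.RFC.pf_MG Pool.Agent.H19.RFC.pf_PS

theorem a_REP : T_REP := Pool.Agent.H79.RFC.pf_REP (Pool.Agent.H7.RFC.pf_ESI a_MG) a_MG

theorem a_STEP : T_STEP := Pool.Agent.H80.RFC.pf_STEP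
  (Pool.Agent.H13.RFC.pf_BOX a_REP a_MON Pool.Agent.H39.RFC.pf_PM) Pool.Agent.H19.RFC.pf_DM
  Pool.Agent.H19.RFC.pf_PS Pool.Agent.H38.RFC.pf_PL

theorem a_MUL : T_MUL := Pool.Agent.H33.RFC.pf_MUL a_STEP Pool.Agent.H38.RFC.pf_PL
  Pool.Agent.H39.RFC.pf_PM a_NN

theorem a_QUE : T_QUE := Pool.Agent.H19.RFC.pf_QUE a_REP Pool.Agent.H65.RFC.pf_PTH
  Pool.Agent.H49.RFC.pf_GEO (Pool.Agent.H11.RFC.pf_FAC Pool.Agent.H19.RFC.pf_PS) a_MUL a_NN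

theorem a_PRO : T_PRO := Pool.Agent.H65.RFC.PRO.pf_PRO Pool.Agent.H30.RFC.pf_LOC
  Pool.Agent.H30.RFC.pf_TRA Pool.Agent.H30.RFC.pf_TRG Pool.Agent.H19.RFC.pf_MEA

theorem a_IN : T_IN := Pool.Agent.H79.RFC.pf_IN
  (Pool.Agent.H49.RFC.pf_IN1 a_QUE a_PRO Pool.Agent.H49.RFC.pf_GEO Pool.Agent.H19.RFC.pf_MEA a_NN)
  Pool.Agent.H49.RFC.pf_LM Pool.Agent.H19.RFC.pf_MEA

theorem a_SEQ : T_SEQ := Pool.Agent.H34.RFC.pf_SEQ Pool.Agent.H41.RFC.pf_PC pf_PC0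
  Pool.Agent.H65.RFC.pf_UNQ Pool.Agent.H19.RFC.pf_MEA

/-- The main theorem of the board. -/
theorem pf_all : T_ALL := Pool.Agent.H34.RFC.pf_ALL a_IN
  (Pool.Agent.H19.RFC.pf_M01 a_NN Pool.Agent.H49.RFC.pf_LM Pool.Agent.H19.RFC.pf_MEA)
  Pool.Agent.H34.RFC.pf_DEC a_SEQ

end Pool.Agent.H98.RFC
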